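import Pool.Agent.helper81.BS.SpecG

set_option autoImplicit false
set_option linter.dupNamespace false
set_option linter.unusedVariables false
set_option linter.unusedSectionVars false

namespace Pool.Agent.helper81.BS

open Pool.Agent.helper81.PL

theorem T5_uncA_sub (n : ℕ) (E : Finset ℕ) (PP : List (Finset ℕ)) (A : Finset ℕ) :
    uncA n E PP A ⊆ A := by
  unfold uncA
  cases h : PP.find? (fun C => leb (dd n E C + 1) (dd n E (C \ A))) with
  | none => simp
  | some C => simp only [Option.map_some, Option.getD_some]; exact Finset.sdiff_subset

theorem T5_len (W : Finset ℕ) (PP : List (Finset ℕ)) (h : IsPart W PP) : PP.length ≤ W.card := by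
  obtain ⟨h1, h2, h3⟩ := h
  subst h3
  induction PP with
  | nil => simp
  | cons C PP ih =>
    rw [List.pairwise_cons] at h2
    have h4 := ih (fun D hD => h1 D (List.mem_cons_of_mem _ hD)) h2.2
    have h5 : unions (C :: PP) = C ∪ unions PP := by
      ext x
      rw [Finset.mem_union, mem_unions, mem_unions]
      simp
    have h6 : Disjoint C (unions PP) := by
      rw [Finset.disjoint_left]
      intro x hx hx2
      rw [mem_unions] at hx2
      obtain ⟨D, hD, hxD⟩ := hx2
      exact (Finset.disjoint_left.1 (h2.1 D hD)) hx hxD
    rw [h5, Finset.card_union_of_disjoint h6, List.length_cons]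
    have := Finset.card_pos.2 (h1 C List.mem_cons_self)
    omega

theorem T5 (h2 : T2_stmt) (h3 : T3_stmt) (h4 : T4_stmt) : T5_stmt := by
  intro N n E W k hN hWF hW hc
  have hnN : n ≤ N := by
    have h7 : n ≤ n * n + n := Nat.le_add_left _ _
    have h8 : 0 ≤ 4 ^ (2 * k) := Nat.zero_le _
    exact h7.trans ((Nat.le_add_right _ _).trans hN)
  have hWlt : ∀ x ∈ W, x < N := fun x hx => by
    have := Finset.mem_range.1 (hW hx)
    omega
  set RL := allImp N n E W (2 * k) with hRL
  -- one step
  have hstep : ∀ PP, Good n E W k PP →
      (improve N n E W k RL PP = PP ∧ ∀ A ∈ RL, violb n E W k PP A = false) ∨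
      (Good n E W k (improve N n E W k RL PP) ∧
        (beta n E W (improve N n E W k RL PP)).card < (beta n E W PP).card ∧
        ¬ ∀ A ∈ RL, violb n E W k PP A = false) := by
    intro PP hPP
    unfold improve
    cases h : RL.find? (fun A => violb n E W k PP A) with
    | none =>
      left
      rw [List.find?_eq_none] at h
      refine ⟨rfl, fun A hA => ?_⟩
      have := h A hA
      simpa using this
    | some A =>
      right
      have hA : violb n E W k PP A = true := List.find?_some h
      have hAR : A ∈ RL := List.mem_of_find?_eq_some h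
      have hAW : A ⊆ W := by
        have := hA
        unfold violb at this
        simp only [Bool.and_eq_true, fsub, decide_eq_true_eq] at this
        exact this.1.1.1
      obtain ⟨e1, _⟩ := citer_inv (N := N) (n := 2 * k) (s := fun X => uncA n E PP X) (x := A)
        (fun X => X ⊆ W) hAW (fun X hX => (T5_uncA_sub n E PP X).trans hX)
        (fun X hX => by rw [fits_finset]; exact fun x hx => hWlt x (hX hx))
      obtain ⟨g1, g2⟩ := h2 n E W k PP A hA
      obtain ⟨k1, k2⟩ := h3 n E W k PP _ hWF hW hPP g1 g2
      simp only [Option.map_some, Option.getD_some]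
      rw [e1]
      refine ⟨k1, k2, fun hall => ?_⟩
      rw [hall A hAR] at hA
      exact absurd hA (by decide)
  have hfits : ∀ PP, Good n E W k PP → Clip.Fits N PP := by
    intro PP hPP
    rw [fits_list]
    refine ⟨?_, ?_⟩
    · have h5 := T5_len W PP hPP.1
      have h6 := Finset.card_le_card hW
      rw [Finset.card_range] at h6
      omega
    · intro C hC
      rw [fits_finset]
      intro x hx
      apply hWlt
      rw [← hPP.1.2.2, mem_unions]
      exact ⟨C, hC, hx⟩
  have hstart : Good n E W k (W.sort.map (fun v => {v})) := by
    refine ⟨⟨?_, ?_, ?_⟩, ?_, ?_⟩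
    · intro C hC
      rw [List.mem_map] at hC
      obtain ⟨v, _, rfl⟩ := hC
      exact Finset.singleton_nonempty v
    · rw [List.pairwise_map]
      have : W.sort.Nodup := Finset.sort_nodup _ _
      refine List.Pairwise.imp ?_ this
      intro a b hab
      rw [Finset.disjoint_singleton]
      exact hab
    · ext x
      rw [mem_unions]
      simp
    · rw [List.length_map, Finset.length_sort]
      exact hc
    · intro C hC h5
      rw [List.mem_map] at hC
      obtain ⟨v, _, rfl⟩ := hC
      rw [Finset.card_singleton] at h5
      omega
  obtain ⟨e1, e2⟩ := citer_inv (N := N) (n := n * n) (s := fun PP => improve N n E W k RL PP)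
    (x := W.sort.map (fun v => ({v} : Finset ℕ))) (fun PP => Good n E W k PP) hstart
    (fun PP hPP => by
      rcases hstep PP hPP with h | h
      · show Good n E W k (improve N n E W k RL PP)
        rw [h.1]; exact hPP
      · exact h.1) hfits
  have hEc : E.card ≤ n * n := by
    have : E ⊆ Finset.range (n * n) := by
      intro e he
      obtain ⟨g1, g2⟩ := hWF e he
      rw [Finset.mem_range]
      have hn : 0 < n := by omega
      have h5 : e / n < n := by omega
      exact (Nat.div_lt_iff_lt_mul hn).1 h5
    have := Finset.card_le_card this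
    rwa [Finset.card_range] at this
  have hQ : ∀ i, Good n E W k ((fun PP => improve N n E W k RL PP)^[i] (W.sort.map (fun v => {v}))) ∧
      ((∀ A ∈ RL, violb n E W k ((fun PP => improve N n E W k RL PP)^[i] (W.sort.map (fun v => {v}))) A = false) ∨
      (beta n E W ((fun PP => improve N n E W k RL PP)^[i] (W.sort.map (fun v => {v})))).card + i ≤ n * n) := by
    intro i
    induction i with
    | zero =>
      refine ⟨hstart, Or.inr ?_⟩
      rw [add_zero]
      refine le_trans (Finset.card_le_card ?_) hEc
      exact (Finset.filter_subset _ _).trans (Finset.filter_subset _ _)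
    | succ i ih =>
      rw [Function.iterate_succ_apply']
      obtain ⟨ih1, ih2⟩ := ih
      rcases hstep _ ih1 with h | h
      · simp only [h.1]
        exact ⟨ih1, Or.inl h.2⟩
      · refine ⟨h.1, Or.inr ?_⟩
        rcases ih2 with h5 | h5
        · exact absurd h5 h.2.2
        · have := h.2.1
          omega
  obtain ⟨q1, q2⟩ := hQ (n * n)
  have hres : tightP N n E W k = (fun PP => improve N n E W k RL PP)^[n * n] (W.sort.map (fun v => {v})) := e1
  rw [hres]
  refine ⟨q1, ?_⟩
  intro A hA hne hdA
  by_contra hcon
  push Not at hcon
  set PP := (fun PP => improve N n E W k RL PP)^[n * n] (W.sort.map (fun v => {v})) with hPP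
  have hv : violb n E W k PP A = true := by
    unfold violb
    simp only [Bool.and_eq_true, fsub, leb, eqb, decide_eq_true_eq, Bool.not_eq_true', decide_eq_false_iff_not]
    exact ⟨⟨⟨hA, hne⟩, hdA⟩, hcon⟩
  rcases q2 with h5 | h5
  · obtain ⟨R, hR, hR2⟩ := h4 N n E W k PP A hN hWF hW hv
    rw [h5 R hR] at hR2
    exact absurd hR2 (by decide)
  · have h6 : (beta n E W PP).card = 0 := by omega
    have h7 : tt n (beta n E W PP) A ≤ (beta n E W PP).card := Finset.card_le_card (Finset.filter_subset _ _)
    omega

end Pool.Agent.helper81.BS
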