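import Pool.Agent.helper73.BS.Spec2

set_option autoImplicit false

namespace Pool.Agent.BS

open Matrix Module Pool.Agent.UG Pool.Agent.H48SL Pool.Agent.SHL

/-- substitution of `A * x * B` in a polynomial -/
theorem PT_subst {m : ℕ} (A B : MQ m) (F : MvPolynomial (Fin m × Fin m) ℚ) :
    ∃ F' : MvPolynomial (Fin m × Fin m) ℚ, ∀ x : MQ m,
      MvPolynomial.eval (fun a : Fin m × Fin m => x a.1 a.2) F' =
      MvPolynomial.eval (fun a : Fin m × Fin m => (A * x * B) a.1 a.2) F := by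
  induction F using MvPolynomial.induction_on with
  | C c =>
    refine ⟨MvPolynomial.C c, fun x => ?_⟩
    rw [MvPolynomial.eval_C, MvPolynomial.eval_C]
  | add p q hp hq =>
    obtain ⟨P, hP⟩ := hp
    obtain ⟨Q, hQ⟩ := hq
    refine ⟨P + Q, fun x => ?_⟩
    rw [map_add, map_add, hP, hQ]
  | mul_X p a hp =>
    obtain ⟨P, hP⟩ := hp
    refine ⟨P * ∑ l, (∑ k, MvPolynomial.C (A a.1 k) * MvPolynomial.X (k, l)) *
      MvPolynomial.C (B l a.2), fun x => ?_⟩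
    rw [map_mul, map_mul, hP, MvPolynomial.eval_X]
    congr 1
    rw [map_sum, Matrix.mul_apply]
    apply Finset.sum_congr rfl
    intro l _
    rw [map_mul, MvPolynomial.eval_C, map_sum, Matrix.mul_apply]
    congr 1
    apply Finset.sum_congr rfl
    intro k _
    rw [map_mul, MvPolynomial.eval_C, MvPolynomial.eval_X]

/-- the first basis vector moved by the inverse -/
def PT_u {n : ℕ} (h : SLZ (n + 2)) : VQ (n + 2) := qg h⁻¹ *ᵥ e0 (n + 1)

/-- the transported family -/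
def PT_Y {n : ℕ} (y : VQ (n + 2) → MQ (n + 2)) (h : SLZ (n + 2)) : MQ (n + 2) :=
  qg h * y (PT_u h) * qg h⁻¹

theorem PT_u_poly {n : ℕ} (P : MvPolynomial (Fin (n + 2)) ℚ) :
    IsPolyQ (fun h : SLZ (n + 2) => MvPolynomial.eval (PT_u h) P) := by
  apply IsPolyQ.evalP (fun (i : Fin (n + 2)) (h : SLZ (n + 2)) => PT_u h i)
  intro i
  have e : (fun h : SLZ (n + 2) => PT_u h i) = fun h => qg h⁻¹ i 0 := by
    funext h
    exact mulVec_e0 (qg h⁻¹) i
  rw [e]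
  exact IsPolyQ.entry_inv i 0

theorem PT_pow {n : ℕ} {F : SLZ n → ℚ} (hF : IsPolyQ F) (k : ℕ) : IsPolyQ (fun g => F g ^ k) := by
  induction k with
  | zero => simp only [pow_zero]; exact IsPolyQ.const 1
  | succ k ih => simp only [pow_succ]; exact ih.mul hF

theorem PT_one {n : ℕ} (H : Subgroup (SLZ (n + 2))) (y : VQ (n + 2) → MQ (n + 2))
    (h : SLZ (n + 2)) (hh : h ∈ H) (hy : y (PT_u h) ∈ ZQ (fixP H (PT_u h))) :
    PT_Y y h ∈ ZQ (mz (H ⊓ St (n + 1))) := by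
  intro F hF
  obtain ⟨F', hF'⟩ := PT_subst (qg h) (qg h⁻¹) F
  have h1 := hy F' (by
    rintro x ⟨g, hg, hgu, rfl⟩
    rw [hF']
    have e : qg h * qg g * qg h⁻¹ = qg (h * g * h⁻¹) := by
      rw [qg_mul, qg_mul]
    rw [e]
    apply hF
    refine ⟨h * g * h⁻¹, ⟨H.mul_mem (H.mul_mem hh hg) (H.inv_mem hh), ?_⟩, rfl⟩
    show fx (h * g * h⁻¹)
    unfold fx
    rw [← e, ← mulVec_mulVec, ← mulVec_mulVec]
    have e2 : qg g *ᵥ (qg h⁻¹ *ᵥ e0 (n + 1)) = qg h⁻¹ *ᵥ e0 (n + 1) := hgu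
    rw [e2, mulVec_mulVec, qg_mul_inv, one_mulVec])
  rw [hF'] at h1
  exact h1

theorem PT_clear {n : ℕ} (y : VQ (n + 2) → MQ (n + 2)) (d : MvPolynomial (Fin (n + 2)) ℚ)
    (G : Fin (n + 2) → Fin (n + 2) → MvPolynomial (Fin (n + 2)) ℚ)
    (hG : ∀ u : VQ (n + 2), MvPolynomial.eval u d ≠ 0 → ∀ i j, MvPolynomial.eval u (G i j)
      = MvPolynomial.eval u d * y u i j)
    (F : MvPolynomial (Fin (n + 2) × Fin (n + 2)) ℚ) :
    ∃ (D : ℕ) (Φ : SLZ (n + 2) → ℚ), IsPolyQ Φ ∧ ∀ h, MvPolynomial.eval (PT_u h) d ≠ 0 →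
      Φ h = MvPolynomial.eval (PT_u h) d ^ D *
        MvPolynomial.eval (fun a : Fin (n + 2) × Fin (n + 2) => PT_Y y h a.1 a.2) F := by
  induction F using MvPolynomial.induction_on with
  | C c =>
    refine ⟨0, fun _ => c, IsPolyQ.const c, fun h _ => ?_⟩
    rw [MvPolynomial.eval_C, pow_zero, one_mul]
  | add p q hp hq =>
    obtain ⟨D, Φ, hΦ, h1⟩ := hp
    obtain ⟨D', Φ', hΦ', h2⟩ := hq
    refine ⟨D + D', fun h => MvPolynomial.eval (PT_u h) d ^ D' * Φ h +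
      MvPolynomial.eval (PT_u h) d ^ D * Φ' h, ?_, ?_⟩
    · exact ((PT_pow (PT_u_poly d) D').mul hΦ).add ((PT_pow (PT_u_poly d) D).mul hΦ')
    · intro h hd
      show MvPolynomial.eval (PT_u h) d ^ D' * Φ h + MvPolynomial.eval (PT_u h) d ^ D * Φ' h = _
      rw [h1 h hd, h2 h hd, map_add]
      ring
  | mul_X p a hp =>
    obtain ⟨D, Φ, hΦ, h1⟩ := hp
    refine ⟨D + 1, fun h => Φ h * ∑ l, (∑ k, qg h a.1 k * MvPolynomial.eval (PT_u h) (G k l)) *
      qg h⁻¹ l a.2, ?_, ?_⟩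
    · apply hΦ.mul
      apply IsPolyQ.sum
      intro l _
      apply IsPolyQ.mul _ (IsPolyQ.entry_inv l a.2)
      apply IsPolyQ.sum
      intro k _
      exact (IsPolyQ.entry a.1 k).mul (PT_u_poly (G k l))
    · intro h hd
      show Φ h * ∑ l, (∑ k, qg h a.1 k * MvPolynomial.eval (PT_u h) (G k l)) *
        qg h⁻¹ l a.2 = _
      rw [h1 h hd, map_mul, MvPolynomial.eval_X]
      have e : ∑ l, (∑ k, qg h a.1 k * MvPolynomial.eval (PT_u h) (G k l)) * qg h⁻¹ l a.2 =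
          MvPolynomial.eval (PT_u h) d * PT_Y y h a.1 a.2 := by
        unfold PT_Y
        rw [Matrix.mul_apply, Finset.mul_sum]
        apply Finset.sum_congr rfl
        intro l _
        rw [Matrix.mul_apply, ← mul_assoc, Finset.mul_sum]
        congr 1
        apply Finset.sum_congr rfl
        intro k _
        rw [hG _ hd k l]
        ring
      rw [e]
      ring

theorem PT (hPRM : UG.PRM_stmt) : PT_stmt := by
  intro n H hD hfam
  obtain ⟨y, ⟨d, hd, G, hG⟩, ⟨f₁, hf₁, h1⟩, ⟨f₂, hf₂, h2⟩⟩ := hfam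
  -- step 2
  have step2 : ∀ h : SLZ (n + 2), MvPolynomial.eval (PT_u h) d ≠ 0 →
      MvPolynomial.eval (PT_u h) f₁ ≠ 0 → PT_Y y h ∈ ZQ (mz (H ⊓ St (n + 1))) := by
    intro h hdh hfh F hF
    obtain ⟨D, Φ, hΦ, hΦ2⟩ := PT_clear y d G hG F
    have hΨ : IsPolyQ (fun g : SLZ (n + 2) => MvPolynomial.eval (PT_u g) f₁ *
        MvPolynomial.eval (PT_u g) d * Φ g) :=
      ((PT_u_poly f₁).mul (PT_u_poly d)).mul hΦ
    have h3 := IsPolyQ.dense hD hΨ (by
      intro g hg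
      show MvPolynomial.eval (PT_u g) f₁ * MvPolynomial.eval (PT_u g) d * Φ g = 0
      by_cases a1 : MvPolynomial.eval (PT_u g) f₁ = 0
      · rw [a1, zero_mul, zero_mul]
      by_cases a2 : MvPolynomial.eval (PT_u g) d = 0
      · rw [a2, mul_zero, zero_mul]
      have h4 := PT_one H y g hg (h1 _ a1) F hF
      rw [hΦ2 g a2, h4, mul_zero, mul_zero]) h
    have h5 : MvPolynomial.eval (PT_u h) f₁ * MvPolynomial.eval (PT_u h) d * Φ h = 0 := h3
    have h6 : Φ h = 0 := by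
      rcases mul_eq_zero.1 h5 with h6 | h6
      · exact absurd h6 (mul_ne_zero hfh hdh)
      · exact h6
    rw [hΦ2 h hdh] at h6
    rcases mul_eq_zero.1 h6 with h7 | h7
    · exact absurd h7 (pow_ne_zero _ hdh)
    · exact h7
  -- step 3
  obtain ⟨h', hh'⟩ := hPRM n (d * f₁ * f₂) (mul_ne_zero (mul_ne_zero hd hf₁) hf₂)
  rw [map_mul, map_mul] at hh'
  set h : SLZ (n + 2) := h'⁻¹ with hh
  have hu : PT_u h = qg h' *ᵥ e0 (n + 1) := by
    unfold PT_u
    rw [hh, inv_inv]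
  rw [← hu] at hh'
  have a2 : MvPolynomial.eval (PT_u h) f₂ ≠ 0 := right_ne_zero_of_mul hh'
  have a1 : MvPolynomial.eval (PT_u h) f₁ ≠ 0 :=
    right_ne_zero_of_mul (left_ne_zero_of_mul hh')
  have a0 : MvPolynomial.eval (PT_u h) d ≠ 0 :=
    left_ne_zero_of_mul (left_ne_zero_of_mul hh')
  refine ⟨PT_Y y h, ?_, ?_⟩
  · intro s hs
    have e1 : PT_u (s * h) = PT_u h := by
      unfold PT_u
      have hs' : qg s⁻¹ *ᵥ e0 (n + 1) = e0 (n + 1) := fx_inv hs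
      rw [_root_.mul_inv_rev, qg_mul, ← mulVec_mulVec, hs']
    have e2 : qg s * PT_Y y h * qg s⁻¹ = PT_Y y (s * h) := by
      unfold PT_Y
      rw [e1, qg_mul, _root_.mul_inv_rev, qg_mul]
      simp only [Matrix.mul_assoc]
    rw [e2]
    apply step2
    · rw [e1]; exact a0
    · rw [e1]; exact a1
  · obtain ⟨w, hw⟩ := h2 _ a2
    refine ⟨qg h *ᵥ w, ?_⟩
    intro hmem
    apply hw
    rw [Submodule.mem_span_pair] at hmem ⊢
    obtain ⟨a, b, hab⟩ := hmem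
    refine ⟨a, b, ?_⟩
    have e1 : PT_Y y h *ᵥ (qg h *ᵥ w) = qg h *ᵥ (y (PT_u h) *ᵥ w) := by
      unfold PT_Y
      rw [mulVec_mulVec, Matrix.mul_assoc, qg_inv_mul, Matrix.mul_one, ← mulVec_mulVec]
    rw [e1] at hab
    have e2 := congrArg (fun v => qg h⁻¹ *ᵥ v) hab
    simp only [mulVec_add, mulVec_smul, mulVec_mulVec, qg_inv_mul, one_mulVec] at e2
    rw [← Matrix.mul_assoc, qg_inv_mul, Matrix.one_mul] at e2
    exact e2

end Pool.Agent.BS
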