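import Pool.Agent.helper81.BS.SpecG

set_option autoImplicit false
set_option linter.dupNamespace false
set_option linter.unusedVariables false
set_option linter.unusedSectionVars false

namespace Pool.Agent.helper81.BS

open Pool.Agent.helper81.PL

theorem T3_mem_dl (n : ℕ) (E M : Finset ℕ) (e : ℕ) :
    e ∈ dl n E M ↔ e ∈ E ∧ ¬ (e / n ∈ M ↔ e % n ∈ M) := by
  unfold dl fmem
  rw [Finset.mem_filter]
  by_cases h1 : e / n ∈ M <;> by_cases h2 : e % n ∈ M <;> simp [h1, h2]

theorem T3_mem_tch (n : ℕ) (E A : Finset ℕ) (e : ℕ) :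
    e ∈ tch n E A ↔ e ∈ E ∧ (e / n ∈ A ∨ e % n ∈ A) := by
  unfold tch fmem
  rw [Finset.mem_filter]
  simp

theorem T3_mem_beta (n : ℕ) (E W : Finset ℕ) (PP : List (Finset ℕ)) (e : ℕ) :
    e ∈ beta n E W PP ↔ e ∈ tch n E W ∧ ∀ C ∈ PP, ¬ (e / n ∈ C ∧ e % n ∈ C) := by
  unfold beta fmem
  rw [Finset.mem_filter]
  simp

theorem T3_mem_uncB (PP : List (Finset ℕ)) (A D : Finset ℕ) :
    D ∈ uncB PP A ↔ D = A ∨ ∃ C ∈ PP, ¬ C ⊆ A ∧ D = C \ A := by
  unfold uncB fsub
  rw [List.mem_cons, List.mem_map]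
  constructor
  · rintro (h | ⟨C, hC, h⟩)
    · exact Or.inl h
    · rw [List.mem_filter] at hC
      exact Or.inr ⟨C, hC.1, by simpa using hC.2, h.symm⟩
  · rintro (h | ⟨C, hC, hCA, h⟩)
    · exact Or.inl h
    · exact Or.inr ⟨C, by rw [List.mem_filter]; exact ⟨hC, by simpa using hCA⟩, h.symm⟩

theorem T3 : T3_stmt := by
  intro n E W k PP A hWF hW hG hv hCA
  obtain ⟨⟨hne, hdis, hun⟩, hlen, hcard⟩ := hG
  unfold violb at hv
  simp only [Bool.and_eq_true, fsub, leb, eqb, decide_eq_true_eq, Bool.not_eq_true', decide_eq_false_iff_not] at hv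
  obtain ⟨⟨⟨hAW, hAne⟩, hdA⟩, htt⟩ := hv
  have hmemW : ∀ x, x ∈ W ↔ ∃ C ∈ PP, x ∈ C := by
    intro x; rw [← hun, mem_unions]
  have hAnon : A.Nonempty := by
    have h1 : 0 < (tch n (beta n E W PP) A).card := by
      have : dd n E A + 1 ≤ (tch n (beta n E W PP) A).card := htt
      omega
    obtain ⟨e, he⟩ := Finset.card_pos.1 h1
    rw [T3_mem_tch] at he
    rcases he.2 with h | h
    · exact ⟨_, h⟩
    · exact ⟨_, h⟩
  refine ⟨⟨⟨?_, ?_, ?_⟩, ?_, ?_⟩, ?_⟩
  · intro D hD
    rw [T3_mem_uncB] at hD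
    rcases hD with h | ⟨C, hC, hCA', h⟩
    · rw [h]; exact hAnon
    · rw [h]; exact Finset.sdiff_nonempty.2 hCA'
  · unfold uncB
    rw [List.pairwise_cons]
    constructor
    · intro D hD
      rw [List.mem_map] at hD
      obtain ⟨C, _, rfl⟩ := hD
      exact Finset.disjoint_sdiff
    · rw [List.pairwise_map]
      refine (hdis.filter _).imp ?_
      intro C C' h
      exact Disjoint.mono Finset.sdiff_subset Finset.sdiff_subset h
  · ext x
    rw [mem_unions]
    constructor
    · rintro ⟨D, hD, hx⟩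
      rw [T3_mem_uncB] at hD
      rcases hD with h | ⟨C, hC, hCA', h⟩
      · rw [h] at hx; exact hAW hx
      · rw [h, Finset.mem_sdiff] at hx
        exact (hmemW x).2 ⟨C, hC, hx.1⟩
    · intro hx
      by_cases hxA : x ∈ A
      · exact ⟨A, (T3_mem_uncB _ _ _).2 (Or.inl rfl), hxA⟩
      · obtain ⟨C, hC, hxC⟩ := (hmemW x).1 hx
        exact ⟨C \ A, (T3_mem_uncB _ _ _).2 (Or.inr ⟨C, hC, fun h => hxA (h hxC), rfl⟩),
          Finset.mem_sdiff.2 ⟨hxC, hxA⟩⟩
  · have : ∃ x ∈ W, x ∉ A := by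
      by_contra hcon
      push Not at hcon
      exact hAne (Finset.Subset.antisymm hAW hcon)
    obtain ⟨x, hx, hxA⟩ := this
    obtain ⟨C, hC, hxC⟩ := (hmemW x).1 hx
    have hmem : C ∈ PP.filter (fun C => !fsub C A) := by
      rw [List.mem_filter]
      refine ⟨hC, ?_⟩
      unfold fsub
      simp only [Bool.not_eq_true', decide_eq_false_iff_not]
      exact fun h => hxA (h hxC)
    unfold uncB
    rw [List.length_cons, List.length_map]
    have := List.length_pos_of_mem hmem
    omega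
  · intro D hD h2
    rw [T3_mem_uncB] at hD
    rcases hD with h | ⟨C, hC, hCA', h⟩
    · rw [h]; exact hdA
    · rw [h]
      have h3 : 2 ≤ C.card := by
        rw [h] at h2
        exact h2.trans (Finset.card_le_card Finset.sdiff_subset)
      exact (hCA C hC).trans (hcard C hC h3)
  · set B := beta n E W PP with hB
    have hBE : B ⊆ E := by
      intro e he
      rw [hB, T3_mem_beta, T3_mem_tch] at he
      exact he.1.1
    set Bin := B.filter (fun e => e / n ∈ A ∧ e % n ∈ A) with hBin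
    have h1 : beta n E W (uncB PP A) ⊆ (B \ Bin) ∪ (dl n E A \ B) := by
      intro e he
      rw [T3_mem_beta] at he
      obtain ⟨he1, he2⟩ := he
      have hnA : ¬ (e / n ∈ A ∧ e % n ∈ A) := he2 A ((T3_mem_uncB _ _ _).2 (Or.inl rfl))
      rw [Finset.mem_union, Finset.mem_sdiff, Finset.mem_sdiff, hBin, Finset.mem_filter, T3_mem_dl]
      by_cases heB : e ∈ B
      · left
        exact ⟨heB, fun h => hnA h.2⟩
      · right
        refine ⟨⟨((T3_mem_tch _ _ _ _).1 he1).1, ?_⟩, heB⟩
        rw [hB, T3_mem_beta] at heB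
        push Not at heB
        obtain ⟨C, hC, hC1, hC2⟩ := heB he1
        have hCA' : ¬ C ⊆ A := fun h => hnA ⟨h hC1, h hC2⟩
        have h3 := he2 (C \ A) ((T3_mem_uncB _ _ _).2 (Or.inr ⟨C, hC, hCA', rfl⟩))
        rw [Finset.mem_sdiff, Finset.mem_sdiff] at h3
        tauto
    have h2 := (Finset.card_le_card h1).trans (Finset.card_union_le _ _)
    have h3 : (B \ Bin).card + Bin.card = B.card := Finset.card_sdiff_add_card_eq_card (Finset.filter_subset _ _)
    have h4 : (dl n E A \ B).card + (dl n E A ∩ B).card = (dl n E A).card :=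
      Finset.card_sdiff_add_card_inter _ _
    have h5 : tch n B A = Bin ∪ (dl n E A ∩ B) := by
      ext e
      rw [T3_mem_tch, Finset.mem_union, Finset.mem_inter, hBin, Finset.mem_filter, T3_mem_dl]
      constructor
      · rintro ⟨g1, g2⟩
        have := hBE g1
        tauto
      · intro h
        tauto
    have h6 : Disjoint Bin (dl n E A ∩ B) := by
      rw [Finset.disjoint_left]
      intro e he1 he2
      rw [hBin, Finset.mem_filter] at he1
      rw [Finset.mem_inter, T3_mem_dl] at he2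
      tauto
    have h7 : tt n B A = Bin.card + (dl n E A ∩ B).card := by
      unfold tt
      rw [h5, Finset.card_union_of_disjoint h6]
    have h8 : dd n E A = (dl n E A).card := rfl
    omega

end Pool.Agent.helper81.BS
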